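import Pool.Agent.MWH.StmtsC
import Pool.Agent.MWS.StmtsA

/-!
# Block MWH, row DI5
-/

set_option autoImplicit false

namespace Pool.Agent.MWH.H36

open Pool.Agent.Helper14_MV Pool.Agent.Helper2_MV Pool.Agent.MVO Pool.Agent.MWL Pool.Agent.MWS

theorem di5 (hTLM : MWS.TlmStmt) (hSWH : SwhStmt) (hBJ5 : Bj5Stmt) (hEDC : EdcStmt)
    (hEL5 : El5Stmt) (hEG5 : Eg5Stmt) (hEK5 : Ek5Stmt) : Di5Stmt := by
  intro β hβ
  exact hTLM β hβ.toBaseH.toBaseR hβ.toBaseH.itr (hSWH β hβ.toBaseH)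
    (hEDC β (hBJ5 β hβ).1 (hEL5 β hβ) (hEG5 β hβ) (hEK5 β hβ))

end Pool.Agent.MWH.H36
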