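import Pool.Agent.MWH.StmtsC
import Pool.Agent.MWS.StmtsA

/-!
# Block MWH, row ENL
-/

set_option autoImplicit false

namespace Pool.Agent.MWH.H36

open Pool.Agent.Helper14_MV Pool.Agent.Helper2_MV Pool.Agent.MVO Pool.Agent.MWL Pool.Agent.MWS

theorem eg_of_tr {β : FIC} {k : ℕ} {a b : ℕ → ℕ} {i : ℕ} {s s' : Stt} (h : Tr β k a b i s s') :
    Eg β k a b i s s' :=
  ⟨[], fun e he => absurd he List.not_mem_nil, fun _ hle _ =>
    ⟨fun _ e he => absurd he List.not_mem_nil, fun _ => hle _ _ h⟩⟩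

theorem enl (hLRN : MWS.LrnStmt) (hLT3 : Lt3Stmt) (hKK1 : Kk1Stmt) : EnlStmt := by
  intro β hβ k a b i hV hN hLL ha hb
  have hLR : LR 1 (FC.ofFIC β) := hLRN β β hβ.1.toBaseH.toBaseR (fun _ _ h => h)
  obtain ⟨m, hm⟩ := hLT3 (FC.ofFIC β) hLR hβ.2 k a hN hV.da hLL i hV.ik ha
  have hT := hKK1 β hβ.1 k a b i hV (Or.inr ⟨hb, m, hm⟩)
  have h1 : Vs a b i Stt.xy := fun h => Stt.noConfusion h
  have h2 : Vs a b i Stt.yx := fun h => Stt.noConfusion h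
  have h3 : Vs a b i Stt.ov := fun _ => Or.inr hb
  exact ⟨eg_of_tr (hT Stt.xy Stt.ov h1 h3), eg_of_tr (hT Stt.yx Stt.ov h2 h3)⟩

end Pool.Agent.MWH.H36
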