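import Pool.Agent.MWH.StmtsA

/-!
# Block MWH, row LT3: a heavy block behind a normal light entry
-/

set_option autoImplicit false

namespace Pool.Agent.MWH.H36

open Pool.Agent.Helper14_MV Pool.Agent.Helper2_MV Pool.Agent.MVO Pool.Agent.MWL Pool.Agent.MWS

/-- the non-empty blocks -/
def sup (k : ℕ) (a : ℕ → ℕ) : Finset ℕ := (Finset.range (k + 1)).filter (fun j => a j ≠ 0)

theorem mem_sup {k : ℕ} {a : ℕ → ℕ} {j : ℕ} : j ∈ sup k a ↔ j ≤ k ∧ a j ≠ 0 := by
  unfold sup
  rw [Finset.mem_filter, Finset.mem_range, Nat.lt_succ_iff]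

theorem card_sup {k : ℕ} {a : ℕ → ℕ} (h : ∀ p ≤ k, a p ≤ 1) : (sup k a).card = deg k a := by
  unfold sup deg
  rw [Finset.card_filter]
  refine Finset.sum_congr rfl (fun j hj => ?_)
  have h1 := h j (Nat.lt_succ_iff.1 (Finset.mem_range.1 hj))
  by_cases h0 : a j = 0
  · rw [if_neg (fun h => h h0), h0]
  · rw [if_pos h0]
    omega

theorem lb_last {k : ℕ} {a : ℕ → ℕ} {v : ℕ} (hv : v ∈ sup k a) (hm : ∀ j ∈ sup k a, j ≤ v) :
    lb a v = (sup k a).card - 1 := by
  have e : (Finset.range v).filter (fun j => a j ≠ 0) = (sup k a).erase v := by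
    ext j
    rw [Finset.mem_filter, Finset.mem_range, Finset.mem_erase, mem_sup]
    constructor
    · rintro ⟨h1, h2⟩
      have := (mem_sup.1 hv).1
      exact ⟨by omega, by omega, h2⟩
    · rintro ⟨h1, h2, h3⟩
      have := hm j (mem_sup.2 ⟨h2, h3⟩)
      exact ⟨by omega, h3⟩
  unfold lb
  rw [e, Finset.card_erase_of_mem hv]

theorem lt3 (hHVP : MWL.HvpStmt) (hARR : MWL.ArrStmt) (hTA2 : MWL.Ta2Stmt) : Lt3Stmt := by
  intro R hR hJ k a hN hdeg hLL i hi hai
  by_contra hno
  have h1 : ∀ m, i < m → m ≤ k → a m ≤ 1 := by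
    intro m h1 h2
    by_contra h3
    exact hno ⟨m, h1, h2, by omega⟩
  have h2 : ∀ p ≤ i, a p ≤ 1 := by
    intro p hp
    by_contra h3
    have h4 : Ab 1 R k a i := (hHVP 1 R hR k a i hi).1 ⟨by omega, p, hp, by omega⟩
    have h5 := hN i hi (by omega) h4
    omega
  have hl : ∀ p ≤ k, a p ≤ 1 := by
    intro p hp
    rcases Nat.lt_or_ge i p with h | h
    · exact h1 p h hp
    · exact h2 p h
  have hc := card_sup hl
  have h3 : deg k a ≠ 2 := by
    intro hq
    rw [hq] at hc
    obtain ⟨x, y, hxy, hS⟩ := Finset.card_eq_two.1 hc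
    have key : ∀ u v, u < v → sup k a = {u, v} → False := by
      intro u v huv hS
      have hu : u ∈ sup k a := by rw [hS]; simp
      have hv : v ∈ sup k a := by rw [hS]; simp
      have hu' := mem_sup.1 hu
      have hv' := mem_sup.1 hv
      have lu := hl u hu'.1
      have lv := hl v hv'.1
      refine hLL u v ⟨huv, hv'.1, by omega, by omega, ?_⟩
      intro j hj h1 h2
      by_contra h3
      have h4 : j ∈ sup k a := mem_sup.2 ⟨hj, h3⟩
      rw [hS] at h4
      simp only [Finset.mem_insert, Finset.mem_singleton] at h4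
      omega
    rcases Nat.lt_or_gt_of_ne hxy with h | h
    · exact key x y h hS
    · exact key y x h (by rw [hS, Finset.pair_comm])
  have hq3 : 3 ≤ deg k a := by omega
  have hJq : ∀ q, 3 ≤ q → Has 1 R (Bit.J q) := by
    intro q hq
    induction q, hq using Nat.le_induction with
    | base => exact hJ
    | succ q hq ih => exact ((hARR 1 R hR).2.2.2.2.1 q (by omega) ih).1
  have hne : (sup k a).Nonempty := by
    rw [← Finset.card_pos, hc]
    omega
  have hv : (sup k a).max' hne ∈ sup k a := Finset.max'_mem _ _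
  have hm : ∀ j ∈ sup k a, j ≤ (sup k a).max' hne := fun j hj => Finset.le_max' _ j hj
  generalize (sup k a).max' hne = v at hv hm
  have hv' := mem_sup.1 hv
  have lv := hl v hv'.1
  have hlb := lb_last hv hm
  rw [hc] at hlb
  have hA : Ab 1 R k a v := by
    refine ((hTA2 1 R hR k a v hv'.1 hl hdeg).1 (by omega)).2 ⟨hJq _ hq3, ?_⟩
    rw [hlb]
    exact ((hARR 1 R hR).2.2.2.2.1 (deg k a) hdeg (hJq _ hq3)).2
  have h5 := hN v hv'.1 hv'.2 hA
  omega

end Pool.Agent.MWH.H36
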