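import Pool.Agent.MWH.StmtsA

/-!
# Block MWH, row SWT: exchange of the two letters
-/

set_option autoImplicit false

namespace Pool.Agent.MWH.H36

open Pool.Agent.Helper14_MV Pool.Agent.Helper2_MV Pool.Agent.MVO Pool.Agent.MWL Pool.Agent.MWS

/-- exchange of the letters `0` and `1` -/
def sg01 (c : ℕ) : ℕ := if c = 0 then 1 else if c = 1 then 0 else c

theorem sg01_sg01 (c : ℕ) : sg01 (sg01 c) = c := by
  unfold sg01
  by_cases h0 : c = 0
  · simp [h0]
  · by_cases h1 : c = 1
    · simp [h1]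
    · simp [h0, h1]

theorem sg01_inj : Function.Injective sg01 := fun x y h => by
  have := congrArg sg01 h
  rwa [sg01_sg01, sg01_sg01] at this

theorem count_sg01 (l : List ℕ) (c : ℕ) : (l.map sg01).count c = l.count (sg01 c) := by
  have h := List.count_map_of_injective l sg01 sg01_inj (sg01 c)
  rwa [sg01_sg01] at h

theorem map_map_sg01 (l : List ℕ) : (l.map sg01).map sg01 = l := by
  rw [List.map_map]
  conv_rhs => rw [← List.map_id l]
  refine List.map_congr_left (fun c _ => sg01_sg01 c)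

theorem bef_map_aux (l : List ℕ) (x y : ℕ) (h : Bef l (sg01 x) (sg01 y)) :
    Bef (l.map sg01) x y := by
  intro P Q e hx
  have e1 : l = P.map sg01 ++ sg01 y :: Q.map sg01 := by
    rw [← map_map_sg01 l, e, List.map_append, List.map_cons]
  exact h _ _ e1 (List.mem_map_of_mem hx)

theorem bef_map (l : List ℕ) (x y : ℕ) : Bef (l.map sg01) x y ↔ Bef l (sg01 x) (sg01 y) := by
  refine ⟨fun h => ?_, bef_map_aux l x y⟩
  have h1 := bef_map_aux (l.map sg01) (sg01 x) (sg01 y) (by rwa [sg01_sg01, sg01_sg01])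
  rwa [map_map_sg01] at h1

theorem Vd_swap {k : ℕ} {a b : ℕ → ℕ} {i : ℕ} (h : Vd k a b i) : Vd k b a i :=
  ⟨h.ik, h.bi, h.ai, fun j hj hne => (h.un j hj hne).symm, h.db, h.da⟩

theorem Vs_swap {a b : ℕ → ℕ} {i : ℕ} {s : Stt} (h : Vs a b i s) : Vs b a i s.sw := by
  intro hs
  have : s = Stt.ov := by
    cases s
    · exact absurd hs (by decide)
    · exact absurd hs (by decide)
    · rfl
  exact (h this).symm

theorem sw_sw (s : Stt) : s.sw.sw = s := by
  cases s <;> rfl

theorem norm (hNFE : NfeStmt) (hOKW : OkwStmt) (β : FIC) (hβ : BaseH β) (k : ℕ) (a b : ℕ → ℕ)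
    (i : ℕ) (hV : Vd k a b i) (s : Stt) (hs : Vs a b i s) :
    RR β (asm k (fun j => (W a b i s j).map sg01)) (asm k (W b a i s.sw)) := by
  obtain ⟨o1, _, o3, o4, o5, o6⟩ := hOKW k a b i s hV hs
  obtain ⟨p1, _, p3, p4, p5, p6⟩ := hOKW k b a i s.sw (Vd_swap hV) (Vs_swap hs)
  have hc : ∀ j c, ((W a b i s j).map sg01).count c = (W b a i s.sw j).count c := by
    intro j c
    rw [count_sg01]
    by_cases h0 : c = 0
    · subst h0
      rw [(p3 j).1]
      exact (o3 j).2
    · by_cases h1 : c = 1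
      · subst h1
        rw [(p3 j).2]
        exact (o3 j).1
      · have e : sg01 c = c := by
          unfold sg01
          rw [if_neg h0, if_neg h1]
        rw [e]
        have e1 : (W a b i s j).count c = 0 := List.count_eq_zero.2 (fun h => by
          rcases o4 j c h with h | h
          · exact h0 h
          · exact h1 h)
        have e2 : (W b a i s.sw j).count c = 0 := List.count_eq_zero.2 (fun h => by
          rcases p4 j c h with h | h
          · exact h0 h
          · exact h1 h)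
        rw [e1, e2]
  have hmem : ∀ j c, c ∈ (W a b i s j).map sg01 ↔ c ∈ W b a i s.sw j := by
    intro j c
    rw [← List.count_pos_iff, ← List.count_pos_iff, hc]
  have hok : OkB k (fun j => (W a b i s j).map sg01) := by
    refine ⟨fun j hj c h => p1.ok j hj c ((hmem j c).1 h), fun j hj c h => ?_⟩
    have h2 := p1.ml j hj c ((hmem j c).1 h)
    simp only [hc]
    exact h2
  refine hNFE β hβ k _ _ hok p1 (fun c _ j _ => Or.inl (hc j c)) ?_
  intro i' hi' x y hxy hx hy _
  have hx' := (hmem i' x).1 hx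
  have hy' := (hmem i' y).1 hy
  have key : (x = 0 ∧ y = 1) ∨ (x = 1 ∧ y = 0) := by
    rcases p4 i' x hx' with h1 | h1
    · rcases p4 i' y hy' with h2 | h2
      · exact absurd (h1.trans h2.symm) hxy
      · exact Or.inl ⟨h1, h2⟩
    · rcases p4 i' y hy' with h2 | h2
      · exact Or.inr ⟨h1, h2⟩
      · exact absurd (h1.trans h2.symm) hxy
  have h0 : 0 ∈ W b a i s.sw i' := by
    rcases key with ⟨rfl, _⟩ | ⟨_, rfl⟩
    · exact hx'
    · exact hy'
  have h1 : 1 ∈ W b a i s.sw i' := by
    rcases key with ⟨_, rfl⟩ | ⟨rfl, _⟩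
    · exact hy'
    · exact hx'
  have hb : b i' ≠ 0 := by
    have := List.count_pos_iff.2 h0
    rw [(p3 i').1] at this
    omega
  have ha : a i' ≠ 0 := by
    have := List.count_pos_iff.2 h1
    rw [(p3 i').2] at this
    omega
  have hi : i' = i := by
    by_contra hne
    rcases hV.un i' hi' hne with h | h
    · exact ha h
    · exact hb h
  subst hi
  change Bef ((W a b i' s i').map sg01) x y ↔ _
  rw [bef_map]
  rcases key with ⟨rfl, rfl⟩ | ⟨rfl, rfl⟩
  · rw [p5]
    refine Iff.trans o6 ?_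
    cases s <;> decide
  · rw [p6]
    refine Iff.trans o5 ?_
    cases s <;> decide

theorem dir (hNFE : NfeStmt) (hOKW : OkwStmt) (β θ : FIC) (hβ : BaseH β) (hle : β ≤ θ) (k : ℕ)
    (a b : ℕ → ℕ) (i : ℕ) (hV : Vd k a b i) (s s' : Stt) (hs : Vs a b i s) (hs' : Vs a b i s')
    (h : Tr θ k a b i s s') : Tr θ k b a i s.sw s'.sw := by
  have o1 := (hOKW k a b i s hV hs).1
  have o1' := (hOKW k a b i s' hV hs').1
  have h1 := rr_sub θ (fun c => [sg01 c]) o1.ok o1'.ok h
  have e : ∀ t : Stt, (fun j => (W a b i t j).flatMap (fun c => [sg01 c])) =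
      fun j => (W a b i t j).map sg01 := by
    intro t
    funext j
    exact List.map_eq_flatMap.symm
  rw [e s, e s'] at h1
  have n1 : RR θ _ _ := hle _ _ (norm hNFE hOKW β hβ k a b i hV s hs)
  have n2 : RR θ _ _ := hle _ _ (norm hNFE hOKW β hβ k a b i hV s' hs')
  exact θ.trans n1.symm (θ.trans h1 n2)

theorem swt (hNFE : NfeStmt) (hOKW : OkwStmt) : SwtStmt := by
  intro β θ hβ hle k a b i hV
  refine ⟨Vd_swap hV, fun s s' hs hs' => ⟨Vs_swap hs, fun h => ?_, fun h => ?_⟩⟩
  · exact dir hNFE hOKW β θ hβ hle k a b i hV s s' hs hs' h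
  · have h1 := dir hNFE hOKW β θ hβ hle k b a i (Vd_swap hV) s.sw s'.sw (Vs_swap hs)
      (Vs_swap hs') h
    rwa [sw_sw, sw_sw] at h1

end Pool.Agent.MWH.H36
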